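import Pool.Agent.H717.PM.Stm
import Pool.Graph.R_pool_sql_team_seeded_b3bd081e.H255R3.PCG.Trie

/-!
# Buneman's theorem for pseudometrics (helper296, for helper717)
-/

set_option autoImplicit false

namespace Pool.Agent.H296.PM

open Pool.Agent.H255R3.PCG (Nd rt par trie trie_adj trie_isTree nd leaf_iff ne_rt lcp lcp_self
  lcp_comm lcp_of_prefix D_symm D_self D_edge path_weight)
open Pool.Agent.H717.PM

/-- A trie with words of equal length as leaves gives a weighted tree. -/
theorem exists_wtree0 {V : Type} (L : V → List ℕ) [Finite V] {K : ℕ}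
    (hlen : ∀ v, (L v).length = K + 1)
    (hinj : Function.Injective L) (hroot : ∃ u v, (L u).head? ≠ (L v).head?) (g : List ℕ → ℝ)
    (hg : ∀ l, l ≠ [] → (∃ v, l <+: L v) → g l.dropLast ≤ g l) :
    ∃ τ : Pool.Agent.R39.PCG.WTree V, ∀ u v,
      τ.d u v = g (L u) + g (L v) - 2 * g (lcp (L u) (L v)) := by
  have hne : Nonempty V := ⟨hroot.choose⟩
  refine ⟨⟨Nd L, inferInstance, trie L, trie_isTree L,
    Sym2.lift ⟨Pool.Agent.H255R3.PCG.D L g, D_symm L g⟩, ?_, nd L, ?_, ?_⟩, ?_⟩
  · intro e
    induction e using Sym2.ind with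
    | _ x y =>
      intro h
      rw [SimpleGraph.mem_edgeSet] at h
      change 0 ≤ Pool.Agent.H255R3.PCG.D L g x y
      have aux : ∀ z : Nd L, z ≠ rt L → 0 ≤ Pool.Agent.H255R3.PCG.D L g z (par L z) := by
        intro z hz
        have h1 : lcp z.1 (par L z).1 = (par L z).1 := lcp_of_prefix (List.dropLast_prefix _)
        have h2 : g (par L z).1 ≤ g z.1 := hg z.1 ((ne_rt L).1 hz) z.2
        unfold Pool.Agent.H255R3.PCG.D
        rw [h1]
        linarith
      rcases (trie_adj L).1 h with ⟨h1, rfl⟩ | ⟨h1, rfl⟩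
      · exact aux x h1
      · rw [D_symm]
        exact aux y h1
  · intro u v huv
    exact hinj (congrArg (fun z => z.1) huv)
  · ext x
    have h1 := leaf_iff L hlen hroot x
    have h2 : ((trie L).neighborSet x).ncard = 1 ↔ ∃! y, (trie L).Adj x y := by
      rw [Set.ncard_eq_one]
      constructor
      · rintro ⟨a, ha⟩
        refine ⟨a, ?_, ?_⟩
        · have : a ∈ (trie L).neighborSet x := by rw [ha]; exact Set.mem_singleton a
          exact this
        · intro y hy
          have : y ∈ (trie L).neighborSet x := hy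
          rw [ha] at this
          exact this
      · rintro ⟨a, ha, hu⟩
        refine ⟨a, Set.ext fun y => ?_⟩
        constructor
        · intro hy
          exact hu y hy
        · intro hy
          rw [Set.mem_singleton_iff] at hy
          rw [hy]
          exact ha
    constructor
    · rintro ⟨v, hv⟩
      exact h2.2 (h1.2 ⟨v, hv⟩)
    · intro h
      obtain ⟨v, hv⟩ := h1.1 (h2.1 h)
      exact ⟨v, hv⟩
  · intro u v
    exact path_weight (Pool.Agent.H255R3.PCG.D L g) (D_symm L g) (D_self L g) (D_edge L g) _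
      (((trie_isTree L).existsUnique_path (nd L u) (nd L v)).choose_spec.1)

/-- the longest common prefix of two words given by functions -/
theorem lcp_map : ∀ (j m : ℕ) (f g : ℕ → ℕ), j < m → (∀ i < j, f i = g i) → f j ≠ g j →
    lcp ((List.range m).map f) ((List.range m).map g) = (List.range j).map f := by
  intro j
  induction j with
  | zero =>
    intro m f g hm _ hne
    obtain ⟨m, rfl⟩ : ∃ m', m = m' + 1 := ⟨m - 1, by omega⟩
    rw [List.range_succ_eq_map, List.map_cons, List.map_cons]
    unfold lcp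
    rw [if_neg hne]
    rfl
  | succ j ih =>
    intro m f g hm hi hne
    obtain ⟨m, rfl⟩ : ∃ m', m = m' + 1 := ⟨m - 1, by omega⟩
    rw [List.range_succ_eq_map, List.map_cons, List.map_cons, List.map_map, List.map_map,
      List.range_succ_eq_map, List.map_cons, List.map_map]
    have h0 : f 0 = g 0 := hi 0 (by omega)
    rw [lcp, if_pos h0]
    congr 1
    exact ih m (f ∘ Nat.succ) (g ∘ Nat.succ) (by omega) (fun i hi' => hi (i + 1) (by omega)) hne

/-- the levels -/
theorem seq_ex (S : Finset ℝ) (hS : ∀ s ∈ S, 0 < s) : ∃ (K : ℕ) (t : ℕ → ℝ), Monotone t ∧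
    (∀ i, 0 < t i) ∧ (∀ s ∈ S, ∃ i, t i = s) ∧ ∀ s ∈ S, s < t K := by
  classical
  obtain ⟨B, hB0, hB⟩ : ∃ B : ℝ, 0 < B ∧ ∀ s ∈ S, s < B := by
    refine ⟨1 + ∑ s ∈ S, s, ?_, fun s hs => ?_⟩
    · have := Finset.sum_nonneg fun s hs => (hS s hs).le
      linarith
    · have := Finset.single_le_sum (fun s hs => (hS s hs).le) hs
      linarith
  refine ⟨S.card, fun i => if h : i < S.card then S.orderEmbOfFin rfl ⟨i, h⟩ else B,
    ?_, ?_, ?_, ?_⟩
  · intro i j hij
    simp only
    by_cases hj : j < S.card
    · have hi : i < S.card := lt_of_le_of_lt hij hj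
      rw [dif_pos hi, dif_pos hj]
      exact (S.orderEmbOfFin rfl).monotone hij
    · rw [dif_neg hj]
      by_cases hi : i < S.card
      · rw [dif_pos hi]
        exact (hB _ (Finset.orderEmbOfFin_mem S rfl _)).le
      · rw [dif_neg hi]
  · intro i
    simp only
    by_cases hi : i < S.card
    · rw [dif_pos hi]
      exact hS _ (Finset.orderEmbOfFin_mem S rfl _)
    · rw [dif_neg hi]
      exact hB0
  · intro s hs
    have h1 : s ∈ Set.range (S.orderEmbOfFin (rfl : S.card = S.card)) := by
      rw [Finset.range_orderEmbOfFin]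
      exact hs
    obtain ⟨i, hi⟩ := h1
    refine ⟨i, ?_⟩
    simp only
    rw [dif_pos i.2]
    exact hi
  · intro s hs
    simp only
    rw [dif_neg (lt_irrefl _)]
    exact hB s hs

section

variable {n : ℕ} {D : ℕ → ℕ → ℝ}

/-- the Gromov product -/
noncomputable def G (D : ℕ → ℕ → ℝ) (x y : ℕ) : ℝ := (D 0 x + D 0 y - D x y) / 2

theorem tri (h : TM n D) {x y z : ℕ} (hx : x < n) (hy : y < n) (hz : z < n) :
    D x y ≤ D x z + D z y := by
  have h1 := h.four x hx y hy z hz z hz
  rw [h.diag z hz, h.symm y hy z hz] at h1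
  rcases h1 with h1 | h1 <;> linarith

theorem G_symm (h : TM n D) {x y : ℕ} (hx : x < n) (hy : y < n) : G D x y = G D y x := by
  unfold G
  rw [h.symm x hx y hy]
  ring

theorem G_nonneg (h : TM n D) (h0 : 0 < n) {x y : ℕ} (hx : x < n) (hy : y < n) : 0 ≤ G D x y := by
  unfold G
  have h1 := tri h hx hy h0
  rw [h.symm x hx 0 h0] at h1
  linarith

theorem G_le (h : TM n D) (h0 : 0 < n) {x y : ℕ} (hx : x < n) (hy : y < n) :
    G D x y ≤ D 0 x := by
  unfold G
  have h1 := tri h h0 hy hx
  linarith

theorem G_self (h : TM n D) {x : ℕ} (hx : x < n) : G D x x = D 0 x := by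
  unfold G
  rw [h.diag x hx]
  ring

theorem G_zero (h : TM n D) (h0 : 0 < n) {x : ℕ} : G D 0 x = 0 := by
  unfold G
  rw [h.diag 0 h0]
  ring

theorem G_ultra (h : TM n D) (h0 : 0 < n) {x y z : ℕ} (hx : x < n) (hy : y < n) (hz : z < n)
    {t : ℝ} (h1 : t ≤ G D x y) (h2 : t ≤ G D y z) : t ≤ G D x z := by
  have h3 := h.four x hx z hz y hy 0 h0
  unfold G at *
  rw [h.symm y hy 0 h0, h.symm z hz 0 h0, h.symm x hx 0 h0, h.symm z hz y hy] at h3
  rcases h3 with h3 | h3 <;> linarith

/-- the relation of the level `t` -/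
def R (D : ℕ → ℕ → ℝ) (t : ℝ) (x y : ℕ) : Prop := x = y ∨ t ≤ G D x y

theorem R_symm (h : TM n D) {t : ℝ} {x y : ℕ} (hx : x < n) (hy : y < n) (hR : R D t x y) :
    R D t y x := by
  rcases hR with h1 | h1
  · exact Or.inl h1.symm
  · exact Or.inr (by rwa [G_symm h hy hx])

theorem R_trans (h : TM n D) (h0 : 0 < n) {t : ℝ} {x y z : ℕ} (hx : x < n) (hy : y < n)
    (hz : z < n) (h1 : R D t x y) (h2 : R D t y z) : R D t x z := by
  rcases h1 with h1 | h1
  · rwa [h1]
  · rcases h2 with h2 | h2
    · rw [← h2]; exact Or.inr h1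
    · exact Or.inr (G_ultra h h0 hx hy hz h1 h2)

/-- the representative of the class -/
noncomputable def rp (n : ℕ) (D : ℕ → ℕ → ℝ) (t : ℝ) (x : ℕ) : ℕ := sInf {y | y < n ∧ R D t x y}

theorem rp_mem {t : ℝ} {x : ℕ} (hx : x < n) : rp n D t x < n ∧ R D t x (rp n D t x) :=
  Nat.sInf_mem (s := {y | y < n ∧ R D t x y}) ⟨x, hx, Or.inl rfl⟩

theorem rp_eq (h : TM n D) (h0 : 0 < n) {t : ℝ} {x y : ℕ} (hx : x < n) (hy : y < n) :
    rp n D t x = rp n D t y ↔ R D t x y := by
  constructor
  · intro he
    have h1 := rp_mem (n := n) (D := D) (t := t) hx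
    have h2 := rp_mem (n := n) (D := D) (t := t) hy
    rw [← he] at h2
    exact R_trans h h0 hx h1.1 hy h1.2 (R_symm h hy h1.1 h2.2)
  · intro hR
    unfold rp
    congr 1
    ext z
    constructor
    · rintro ⟨hz, h1⟩
      exact ⟨hz, R_trans h h0 hy hx hz (R_symm h hx hy hR) h1⟩
    · rintro ⟨hz, h1⟩
      exact ⟨hz, R_trans h h0 hx hy hz hR h1⟩

theorem min_rp (h : TM n D) (h0 : 0 < n) {t : ℝ} {x : ℕ} (hx : x < n) :
    min t (D 0 (rp n D t x)) = min t (D 0 x) := by
  obtain ⟨h1, h2⟩ := rp_mem (n := n) (D := D) (t := t) hx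
  rcases h2 with h2 | h2
  · rw [← h2]
  · have h3 := G_le h h0 hx h1
    have h4 := G_le h h0 h1 hx
    rw [G_symm h h1 hx] at h4
    rw [min_eq_left (by linarith), min_eq_left (by linarith)]

/-- the depth of a node -/
noncomputable def gg (D : ℕ → ℕ → ℝ) (t : ℕ → ℝ) (l : List ℕ) : ℝ :=
  if l = [] then 0 else min (t (l.length - 1)) (D 0 (l.getLastD 0))

theorem gg_zero (t : ℕ → ℝ) (f : ℕ → ℕ) : gg D t ((List.range 0).map f) = 0 := by
  unfold gg
  simp

theorem gg_succ (h : TM n D) (h0 : 0 < n) (t : ℕ → ℝ) {x : ℕ} (hx : x < n) (j : ℕ) :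
    gg D t ((List.range (j + 1)).map fun i => rp n D (t i) x) = min (t j) (D 0 x) := by
  unfold gg
  rw [if_neg (by simp), List.length_map, List.length_range, Nat.add_sub_cancel,
    List.range_succ, List.map_append, List.map_cons, List.map_nil, ← min_rp h h0 hx]
  congr 2
  simp

end

theorem t_bun : S_bun := by
  classical
  intro n hn D hD
  rcases Nat.lt_or_ge n 2 with hlt | hge
  · have h0 : n = 0 := by omega
    subst h0
    refine ⟨⟨Unit, inferInstance, ⊥, ?_, fun _ => 0, fun _ _ => le_refl _, Fin.elim0, ?_, ?_⟩,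
      fun u => Fin.elim0 u⟩
    · exact ⟨⟨fun _ _ => ⟨SimpleGraph.Walk.nil.copy rfl (Subsingleton.elim _ _)⟩⟩,
        SimpleGraph.isAcyclic_bot⟩
    · intro u
      exact Fin.elim0 u
    · ext x
      constructor
      · rintro ⟨v, _⟩
        exact Fin.elim0 v
      · intro hx
        exfalso
        have h1 : ((⊥ : SimpleGraph Unit).neighborSet x).ncard = 1 := hx
        have h2 : (⊥ : SimpleGraph Unit).neighborSet x = ∅ := by
          ext y
          simp
        rw [h2, Set.ncard_empty] at h1
        exact absurd h1 (by norm_num)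
  · have h0 : 0 < n := by omega
    obtain ⟨S, hS⟩ : ∃ S : Finset ℝ, S = ((Finset.range n ×ˢ Finset.range n).image
      fun z => G D z.1 z.2).filter fun s => 0 < s := ⟨_, rfl⟩
    have hSm : ∀ x < n, ∀ y < n, 0 < G D x y → G D x y ∈ S := by
      intro x hx y hy hpos
      rw [hS, Finset.mem_filter, Finset.mem_image]
      exact ⟨⟨(x, y), Finset.mem_product.2 ⟨Finset.mem_range.2 hx, Finset.mem_range.2 hy⟩, rfl⟩,
        hpos⟩
    obtain ⟨K, t, ht, htp, htS, htK⟩ := seq_ex S fun s hs => by
      rw [hS, Finset.mem_filter] at hs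
      exact hs.2
    have hGK : ∀ x < n, ∀ y < n, G D x y < t K := by
      intro x hx y hy
      rcases (G_nonneg hD h0 hx hy).eq_or_lt with h | h
      · rw [← h]; exact htp K
      · exact htK _ (hSm x hx y hy h)
    obtain ⟨L, hL⟩ : ∃ L : Fin n → List ℕ,
      ∀ u, L u = (List.range (K + 1)).map fun i => rp n D (t i) u := ⟨_, fun _ => rfl⟩
    have hlen : ∀ v, (L v).length = K + 1 := by
      intro v
      rw [hL, List.length_map, List.length_range]
    have hLeq : ∀ u v : Fin n, (∀ i < K + 1, rp n D (t i) u = rp n D (t i) v) → u = v := by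
      intro u v huv
      rcases (rp_eq hD h0 u.2 v.2).1 (huv K (by omega)) with h | h
      · exact Fin.ext h
      · exact absurd h (not_le.2 (hGK _ u.2 _ v.2))
    have hinj : Function.Injective L := by
      intro u v huv
      rw [hL, hL] at huv
      refine hLeq u v fun i hi => ?_
      exact List.map_inj_left.1 huv i (List.mem_range.2 hi)
    have hhead : ∀ v, (L v).head? = some (rp n D (t 0) v) := by
      intro v
      rw [hL, List.range_succ_eq_map]
      rfl
    have hroot : ∃ u v, (L u).head? ≠ (L v).head? := by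
      refine ⟨⟨0, h0⟩, ⟨1, by omega⟩, ?_⟩
      rw [hhead, hhead]
      intro he
      have h1 := (rp_eq hD h0 h0 (show 1 < n by omega)).1 (Option.some.inj he)
      rcases h1 with h1 | h1
      · exact absurd h1 (by norm_num)
      · rw [G_zero hD h0] at h1
        exact absurd h1 (not_le.2 (htp 0))
    have hg : ∀ l, l ≠ [] → (∃ v, l <+: L v) → gg D t l.dropLast ≤ gg D t l := by
      rintro l hl ⟨v, hv⟩
      have hll := hv.length_le
      rw [hlen] at hll
      obtain ⟨j, hj⟩ : ∃ j, l.length = j + 1 :=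
        ⟨l.length - 1, by have := List.length_pos_iff.2 hl; omega⟩
      have h1 : l = (List.range (j + 1)).map fun i => rp n D (t i) v := by
        rw [List.prefix_iff_eq_take.1 hv, hL, ← List.map_take, List.take_range, hj]
        congr 2
        omega
      have h2 : l.dropLast = (List.range j).map fun i => rp n D (t i) v := by
        rw [h1, List.range_succ, List.map_append, List.map_cons, List.map_nil,
          List.dropLast_concat]
      have hv0 : 0 ≤ D 0 v := hD.nonneg 0 h0 v v.2
      rw [h2, h1, gg_succ hD h0 t v.2]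
      rcases Nat.eq_zero_or_pos j with hj0 | hj0
      · rw [hj0, gg_zero]
        exact le_min (htp _).le hv0
      · obtain ⟨i, rfl⟩ : ∃ i, j = i + 1 := ⟨j - 1, by omega⟩
        rw [gg_succ hD h0 t v.2]
        exact min_le_min_right _ (ht (Nat.le_succ i))
    obtain ⟨τ, hτ⟩ := exists_wtree0 L hlen hinj hroot (gg D t) hg
    refine ⟨τ, fun u v => ?_⟩
    rw [hτ]
    by_cases huv : u = v
    · rw [huv, lcp_self, hD.diag v v.2]
      ring
    · have hfull : ∀ w : Fin n, gg D t (L w) = D 0 w := by
        intro w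
        rw [hL, gg_succ hD h0 t w.2, min_eq_right]
        have := hGK w w.2 w w.2
        rw [G_self hD w.2] at this
        exact this.le
      have hex : ∃ j, j < K + 1 ∧ rp n D (t j) u ≠ rp n D (t j) v := by
        by_contra hcon
        push Not at hcon
        exact huv (hLeq u v hcon)
      obtain ⟨hj1, hj2⟩ := Nat.find_spec hex
      have hj3 : ∀ i < Nat.find hex, rp n D (t i) u = rp n D (t i) v := by
        intro i hi
        have := Nat.find_min hex hi
        push Not at this
        exact this (by omega)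
      obtain ⟨j, hj⟩ : ∃ j, j = Nat.find hex := ⟨_, rfl⟩
      rw [← hj] at hj1 hj2 hj3
      have hlcp : lcp (L u) (L v) = (List.range j).map fun i => rp n D (t i) u := by
        rw [hL, hL]
        exact lcp_map j (K + 1) _ _ hj1 hj3 hj2
      have hne : (u : ℕ) ≠ v := fun h => huv (Fin.ext h)
      have hlt : G D u v < t j := by
        by_contra hcon
        exact hj2 ((rp_eq hD h0 u.2 v.2).2 (Or.inr (not_lt.1 hcon)))
      have key : gg D t (lcp (L u) (L v)) = G D u v := by
        rw [hlcp]
        rcases Nat.eq_zero_or_pos j with hj0 | hj0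
        · rw [hj0, gg_zero]
          rcases (G_nonneg hD h0 u.2 v.2).eq_or_lt with h | h
          · exact h
          · exfalso
            obtain ⟨i, hi⟩ := htS _ (hSm _ u.2 _ v.2 h)
            rw [hj0, ← hi] at hlt
            exact absurd (ht (Nat.zero_le i)) (not_le.2 hlt)
        · obtain ⟨i, rfl⟩ : ∃ i, j = i + 1 := ⟨j - 1, by omega⟩
          rw [gg_succ hD h0 t u.2]
          have h1 : t i ≤ G D u v := by
            rcases (rp_eq hD h0 u.2 v.2).1 (hj3 i (by omega)) with h | h
            · exact absurd h hne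
            · exact h
          have hpos : 0 < G D u v := lt_of_lt_of_le (htp i) h1
          obtain ⟨i', hi'⟩ := htS _ (hSm _ u.2 _ v.2 hpos)
          have h2 : i' ≤ i := by
            by_contra hcon
            have := ht (show i + 1 ≤ i' by omega)
            rw [hi'] at this
            exact absurd this (not_le.2 hlt)
          have h3 : G D u v ≤ t i := by
            rw [← hi']
            exact ht h2
          have h4 : G D u v = t i := le_antisymm h3 h1
          rw [h4]
          refine min_eq_left ?_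
          rw [← h4]
          exact G_le hD h0 u.2 v.2
      rw [hfull, hfull, key]
      unfold G
      ring

end Pool.Agent.H296.PM
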